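import Pool.Agent.Lib.MP_b35d54_lc_Db.Fin

/-!
# Counting cycles by determinants needs about `2 ^ n` of them

The fast algorithms for Hamiltonicity (Björklund, `1.66 ^ n` steps, and `2 ^ (n / 2)` steps for
bipartite graphs) compute a linear combination of determinants of matrices which are obtained from
the adjacency matrix of the graph by multiplying its entries with weights and by adding a diagonal
matrix; in characteristic two all unwanted cycle covers cancel.  We prove that there is no formula
of this kind for the number of cycles in any other characteristic: a linear combination of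
determinants (or permanents, or the sums `∑ κ(σ) ∏ M v (σ v)` of any nowhere vanishing class
function `κ` of the permutations) which gives the number of cycles of every bipartite graph with
`n` vertices has at least `2 ^ n / (16 n)` terms, if the weights are symmetric or skew symmetric
outside a small set of vertices, and at least `2 ^ (n / 4 - 2)` terms for arbitrary weights in any
characteristic.  The terms are replaced by one matrix over a commutative algebra `B`: `N` matrices
with scalar weights are the case `B = K ^ N` of dimension `N`.

* `numCycles S G`: the number of cycles (connected 2-regular subgraphs) of `G` whose number of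
  vertices is in `S`; for `S = univ` all cycles, for `S = {n}` the Hamiltonian cycles.
* `weighted D W G`: the matrix with the entries `D u` on the diagonal, `W u v` at the pairs of
  adjacent vertices and `0` elsewhere.
* `matrixSum κ M`: the sum over all permutations `σ` of `κ σ` times the product of the entries
  `M v (σ v)`; the determinant for `κ = sign`, the permanent for `κ = 1`.
-/

namespace Pool.Agent.Results.MP_b35d54_lc.DeterminantBarrier

/-- The number of cycles of `G` whose length belongs to `S`. -/
noncomputable def numCycles (S : Set ℕ) {n : ℕ} (G : SimpleGraph (Fin n)) : ℕ :=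
  {H : G.Subgraph | (H.Connected ∧ ∀ v ∈ H.verts, (H.neighborSet v).ncard = 2) ∧
    H.verts.ncard ∈ S}.ncard

open Classical in
/-- The adjacency matrix of `G` with weights `W` plus the diagonal matrix `D`. -/
noncomputable def weighted {B : Type*} [CommRing B] {n : ℕ} (D : Fin n → B)
    (W : Fin n → Fin n → B) (G : SimpleGraph (Fin n)) : Matrix (Fin n) (Fin n) B :=
  fun u v => if u = v then D u else if G.Adj u v then W u v else 0

/-- The generalised matrix function with coefficients `κ`. -/
def matrixSum {K B : Type*} [Field K] [CommRing B] [Algebra K B] {n : ℕ}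
    (κ : Equiv.Perm (Fin n) → K) (M : Matrix (Fin n) (Fin n) B) : B :=
  ∑ σ, κ σ • ∏ v, M v (σ v)

/-- For the sign this is the determinant. -/
theorem matrixSum_sign {K B : Type*} [Field K] [CommRing B] [Algebra K B] {n : ℕ}
    (M : Matrix (Fin n) (Fin n) B) :
    matrixSum (fun σ => ((Equiv.Perm.sign σ : ℤ) : K)) M = M.det := by
  rw [← Matrix.det_transpose, Matrix.det_apply', matrixSum]
  refine Finset.sum_congr rfl fun σ _ => ?_
  rw [Algebra.smul_def, map_intCast]
  rfl

/-- For the constant `1` this is the permanent. -/
theorem matrixSum_one {K B : Type*} [Field K] [CommRing B] [Algebra K B] {n : ℕ}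
    (M : Matrix (Fin n) (Fin n) B) : matrixSum (fun _ => (1 : K)) M = M.permanent := by
  rw [← Matrix.permanent_transpose, matrixSum, Matrix.permanent]
  refine Finset.sum_congr rfl fun σ _ => ?_
  rw [one_smul]
  rfl

/-- Let `4 ≤ m ≤ n`, `m` even, `m ∈ S`, let `K` be a field, `B` a finite-dimensional commutative
`K`-algebra, `D` and `W` arbitrary weights in `B`, `f : B → K` linear and `κ` a class function
without zeros on the permutations of the `n` vertices.  If the number of cycles with length in `S`
of every graph with chromatic number at most `2` is `f (∑ κ σ ∏ M v (σ v))` for the weighted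
adjacency matrix `M = D + W ∘ A`, then `2 ^ (m / 4) ≤ 2 dim B`.  If moreover `2 ≠ 0` in `K` and
`W u v = ε W v u` for all vertices `u`, `v` outside a set `Z` of at most `n + 1 - m` vertices, then
`C(m - 2, m / 2 - 1) ≤ 2 dim B` and `2 ^ m ≤ 8 m dim B`. -/
theorem result {K : Type*} [Field K] {B : Type*} [CommRing B] [Algebra K B]
    [FiniteDimensional K B] {n m : ℕ} (hm : Even m) (h4 : 4 ≤ m) (hmn : m ≤ n) (S : Set ℕ)
    (hS : m ∈ S) (κ : Equiv.Perm (Fin n) → K) (hκ : ∀ σ τ, κ (τ * σ * τ⁻¹) = κ σ)
    (hκ0 : ∀ σ, κ σ ≠ 0) (D : Fin n → B) (W : Fin n → Fin n → B) (f : B →ₗ[K] K)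
    (h : ∀ G : SimpleGraph (Fin n), G.Colorable 2 →
      (numCycles S G : K) = f (matrixSum κ (weighted D W G))) :
    2 ^ (m / 4) ≤ 2 * Module.finrank K B ∧
    ((2 : K) ≠ 0 → ∀ Z : Finset (Fin n), Z.card + m ≤ n + 1 →
      (∃ ε : B, ∀ u, u ∉ Z → ∀ v, v ∉ Z → W u v = ε * W v u) →
      (m - 2).choose (m / 2 - 1) ≤ 2 * Module.finrank K B ∧
        2 ^ m ≤ 8 * m * Module.finrank K B) :=
  Pool.Agent.MP_b35d54_lc.Db.final hm h4 hmn S hS κ hκ hκ0 D W f h

end Pool.Agent.Results.MP_b35d54_lc.DeterminantBarrier
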