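import Pool.Agent.Lib.MP_b35d54_lc.Transfer

/-!
# Counting all cycles below `2 ^ n` is equivalent to counting Hamiltonian cycles below `2 ^ n`

The problem asks for an algorithm that counts all cycles of a graph with `n` vertices in time
`O*(1.99 ^ n)`.  We prove that an algorithm for *all* cycles with some base `a < 2` exists if and
only if one for *Hamiltonian* cycles with some base `a < 2` exists, and give the explicit transfer
of bases in both directions.  Everything holds for deterministic machines with or without the
requirement of polynomial space.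

* `numCycles G`: the number of connected 2-regular subgraphs of `G`.
* `numHam G`: the number of those that contain every vertex of `G`.
* `Counts ps a f`: a deterministic multi-stack Turing machine of Mathlib (`FinTM2`, with two-valued
  input and output alphabets, see `Box`) computes `f G` from the adjacency matrix of every graph
  `G` on `n` vertices in at most `p n * a ^ n` steps, for one polynomial `p`, that is in time
  `O*(a ^ n)`; if `ps = true`, it moreover never uses more than `p n` stack cells.
-/

namespace Pool.Agent.Results.MP_b35d54_lc.HamiltonianEquivalence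

open Pool.Agent.PolyTime Pool.Agent.MP_b35d54_lc Real

/-- The number of cycles of a graph: connected subgraphs in which all degrees are 2. -/
noncomputable def numCycles (n : ℕ) (G : SimpleGraph (Fin n)) : ℕ :=
  {H : G.Subgraph | H.Connected ∧ ∀ v ∈ H.verts, (H.neighborSet v).ncard = 2}.ncard

/-- The number of Hamiltonian cycles of a graph. -/
noncomputable def numHam (n : ℕ) (G : SimpleGraph (Fin n)) : ℕ :=
  {H : G.Subgraph | (H.Connected ∧ ∀ v ∈ H.verts, (H.neighborSet v).ncard = 2) ∧
    H.verts = Set.univ}.ncard

/-- The number `f n G` is computed from the adjacency matrix of `G` by a deterministic Turing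
machine in time `O*(a ^ n)`, where `n` is the number of vertices; if `ps` is true, in polynomial
space as well. -/
def Counts (ps : Bool) (a : ℝ) (f : (n : ℕ) → SimpleGraph (Fin n) → ℕ) : Prop :=
  ∃ (B : Box) (p : Polynomial ℕ), ∀ (n : ℕ) (G : SimpleGraph (Fin n)), ∃ t S : ℕ,
    B.Runs (bits (enc (code G))) (bits (enc (f n G))) t S ∧
      (t : ℝ) ≤ (p.eval n : ℕ) * a ^ n ∧ (ps = true → S ≤ p.eval n)

theorem counts_iff (ps : Bool) (a : ℝ) (f : (n : ℕ) → SimpleGraph (Fin n) → ℕ) :
    Counts ps a f ↔ Solves (ps = true) a (fun G => f G.1 G.2) := by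
  constructor
  · rintro ⟨B, p, h⟩
    exact ⟨B, p, fun G => h G.1 G.2⟩
  · rintro ⟨B, p, h⟩
    exact ⟨B, p, fun n G => h ⟨n, G⟩⟩

/-- For machines with and without the requirement of polynomial space:

1. all cycles can be counted in time `O*(a ^ n)` for some `a < 2` if and only if Hamiltonian cycles
   can be counted in time `O*(a ^ n)` for some `a < 2`;
2. explicit bases: if `0 < δ < 1` is rational, `1 ≤ b`, `b δ ≤ 1 - δ`,
   `exp(H(δ)) b ^ (1 - δ) ≤ a` and `exp(H((1 - δ) / 2)) ≤ a`, `H` the binary entropy function,
   then either of the two counting problems is solvable in time `O*(a ^ n)` if the other one is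
   solvable in time `O*(b ^ n)`;
3. if Hamiltonian cycles can be counted in time `O*(1.49 ^ n)`, then all cycles can be counted in
   time `O*(1.99 ^ n)`, the bound of the question. -/
theorem result (ps : Bool) :
    ((∃ a : ℝ, 0 ≤ a ∧ a < 2 ∧ Counts ps a numCycles) ↔
      (∃ a : ℝ, 0 ≤ a ∧ a < 2 ∧ Counts ps a numHam)) ∧
    (∀ (a b : ℝ) (δ : ℚ), 0 < δ → δ < 1 → 1 ≤ b → b * δ ≤ 1 - δ →
      exp (binEntropy δ) * b ^ (1 - (δ : ℝ)) ≤ a → exp (binEntropy ((1 - (δ : ℝ)) / 2)) ≤ a →
      (Counts ps b numHam → Counts ps a numCycles) ∧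
      (Counts ps b numCycles → Counts ps a numHam)) ∧
    (Counts ps 1.49 numHam → Counts ps 1.99 numCycles) := by
  refine ⟨?_, fun a b δ h0 h1 hb hbδ ha1 ha2 => ?_, ?_⟩
  · simp_rw [counts_iff]
    exact equivalence
  · obtain ⟨u, v, hu, huv, rfl⟩ : ∃ u v : ℕ, 0 < u ∧ u < v ∧ δ = (u : ℚ) / v := by
      refine ⟨δ.num.toNat, δ.den, ?_, ?_, ?_⟩
      · have := Rat.num_pos.2 h0
        omega
      · have h2 : 0 < δ.num := Rat.num_pos.2 h0
        have h3 : δ.num < δ.den := Rat.num_lt_denom_iff.2 h1
        omega
      · have h2 : 0 < δ.num := Rat.num_pos.2 h0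
        have h3 : ((δ.num.toNat : ℕ) : ℤ) = δ.num := Int.toNat_of_nonneg h2.le
        have h4 : ((δ.num.toNat : ℕ) : ℚ) = (δ.num : ℚ) := by exact_mod_cast h3
        rw [h4]
        exact (Rat.num_div_den δ).symm
    simp_rw [counts_iff]
    push_cast at hbδ ha1 ha2 ⊢
    exact transfer hu huv hb hbδ ha1 ha2
  · simp_rw [counts_iff]
    exact from149.1

end Pool.Agent.Results.MP_b35d54_lc.HamiltonianEquivalence
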