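import Pool.Agent.Lib.MP_b35d54_lc.Bounds

/-!
# Counting cycles by walks in weighted copies of the graph needs about `2 ^ n` of them

All known algorithms that count (Hamiltonian) cycles in polynomial space with about `2 ^ n` steps
write the number as a linear combination of numbers of walks with at most `n` steps in about `2 ^ n`
induced subgraphs, that is of entries of powers of matrices obtained from the adjacency matrix by
multiplying its entries with weights `0` and `1`.  We prove that every formula of this kind is of
size at least `2 ^ n / (8 n ^ 2)`, for arbitrary weights in any commutative algebra over a field of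
characteristic zero: `N` matrices with scalar weights are the case `B = K ^ N` of dimension `N`.
So the answer to the question is negative for the algorithms of this type.

* `numCycles S G`: the number of cycles (connected 2-regular subgraphs) of `G` whose number of
  vertices is in `S`; for `S = univ` all cycles, for `S = {n}` the Hamiltonian cycles.
* `weighted d w G`: the adjacency matrix of `G` with its entry at `(u, v)` multiplied by
  `d u * w u v`, with arbitrary vertex weights `d` and symmetric edge weights `w`.
-/

namespace Pool.Agent.Results.MP_b35d54_lc.WalkBarrier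

open Pool.Agent.MP_b35d54_lc

/-- The number of cycles of `G` whose length belongs to `S`. -/
noncomputable def numCycles (S : Set ℕ) {n : ℕ} (G : SimpleGraph (Fin n)) : ℕ :=
  {H : G.Subgraph | (H.Connected ∧ ∀ v ∈ H.verts, (H.neighborSet v).ncard = 2) ∧
    H.verts.ncard ∈ S}.ncard

open Classical in
/-- The adjacency matrix of `G` with weights. -/
noncomputable def weighted {B : Type*} [CommRing B] {n : ℕ} (d : Fin n → B)
    (w : Fin n → Fin n → B) (G : SimpleGraph (Fin n)) : Matrix (Fin n) (Fin n) B :=
  fun u v => if G.Adj u v then d u * w u v else 0

/-- Let `3 ≤ k ≤ n`, `k ∈ S`, let `K` be a field of characteristic zero, `B` a finite-dimensional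
commutative `K`-algebra, `d` vertex weights and `w` symmetric edge weights in `B`.  If for every
graph `G` on `n` vertices the number of cycles with length in `S` is the sum of the values of
arbitrary linear functionals `φ j u v : B → K` at the entries of the powers `M ^ j`, `j ≤ k`, of
the weighted adjacency matrix `M` of `G`, then `C(n, k/2) ≤ 2 n ^ 6 dim B`, and for `k = n` even
`2 ^ n ≤ 8 n ^ 2 dim B`. -/
theorem result {K : Type*} [Field K] [CharZero K] {B : Type*} [CommRing B] [Algebra K B]
    [FiniteDimensional K B] {n k : ℕ} (hk : 3 ≤ k) (hkn : k ≤ n) (S : Set ℕ) (hS : k ∈ S)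
    (d : Fin n → B) (w : Fin n → Fin n → B) (hw : ∀ u v, w u v = w v u)
    (φ : ℕ → Fin n → Fin n → (B →ₗ[K] K))
    (h : ∀ G : SimpleGraph (Fin n), (numCycles S G : K) =
      ∑ j ∈ Finset.range (k + 1), ∑ u, ∑ v, φ j u v ((weighted d w G ^ j) u v)) :
    n.choose (k / 2) ≤ 2 * n ^ 6 * Module.finrank K B ∧
      (k = n → 2 ^ n ≤ 8 * n ^ 2 * Module.finrank K B) := by
  have key := barrier hk hkn hS d w hw φ h
  refine ⟨bound_choose hk hkn key, ?_⟩
  rintro rfl
  exact bound_two hk key

end Pool.Agent.Results.MP_b35d54_lc.WalkBarrier
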